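import Mathlib

/-!
# Maximal filters and ideals of subspaces and their translates
-/

namespace Q6.Filt

universe u v

variable {F : Type u} {V : Type v} [Field F] [AddCommGroup V] [Module F V]

/-- A filter on the set of all subspaces of `V`. -/
def IsFilt (X : Set (Submodule F V)) : Prop :=
  ⊤ ∈ X ∧ ⊥ ∉ X ∧ (∀ U ∈ X, ∀ W, U ≤ W → W ∈ X) ∧ ∀ U ∈ X, ∀ W ∈ X, U ⊓ W ∈ X

/-- A maximal filter. -/
def IsMaxFilt (X : Set (Submodule F V)) : Prop :=
  IsFilt X ∧ ∀ Y : Set (Submodule F V), IsFilt Y → X ⊆ Y → Y = X

/-- An ideal of the set of all subspaces of `V`. -/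
def IsIdl (X : Set (Submodule F V)) : Prop :=
  ⊥ ∈ X ∧ ⊤ ∉ X ∧ (∀ U ∈ X, ∀ W, W ≤ U → W ∈ X) ∧ ∀ U ∈ X, ∀ W ∈ X, U ⊔ W ∈ X

/-- A maximal ideal. -/
def IsMaxIdl (X : Set (Submodule F V)) : Prop :=
  IsIdl X ∧ ∀ Y : Set (Submodule F V), IsIdl Y → X ⊆ Y → Y = X

/-- The translate of a set of subspaces by an invertible linear map: the set of the images of its
members. -/
def translate (g : V ≃ₗ[F] V) (X : Set (Submodule F V)) : Set (Submodule F V) :=
  {W | ∃ U ∈ X, U.map (g : V →ₗ[F] V) = W}

/-- The set of all translates of `X`. -/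
def orbit (X : Set (Submodule F V)) : Set (Set (Submodule F V)) :=
  {Y | ∃ g : V ≃ₗ[F] V, Y = translate g X}

/-- `GL(V)` acts `k`-transitively on the set `Ω` (of sets of subspaces): any `k`-tuple of pairwise
distinct members of `Ω` can be mapped to any other one. -/
def KTransitive (k : ℕ) (Ω : Set (Set (Submodule F V))) : Prop :=
  ∀ x y : Fin k → Set (Submodule F V), Function.Injective x → Function.Injective y →
    (∀ i, x i ∈ Ω) → (∀ i, y i ∈ Ω) → ∃ g : V ≃ₗ[F] V, ∀ i, translate g (x i) = y i

/-! ### Translates -/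

lemma mem_translate {g : V ≃ₗ[F] V} {X : Set (Submodule F V)} {W : Submodule F V} :
    W ∈ translate g X ↔ W.comap (g : V →ₗ[F] V) ∈ X := by
  constructor
  · rintro ⟨U, hU, rfl⟩
    rwa [Submodule.comap_map_eq_of_injective g.injective]
  · intro h
    exact ⟨_, h, Submodule.map_comap_eq_of_surjective g.surjective _⟩

lemma map_mem_translate {g : V ≃ₗ[F] V} {X : Set (Submodule F V)} {U : Submodule F V}
    (h : U ∈ X) : U.map (g : V →ₗ[F] V) ∈ translate g X := ⟨U, h, rfl⟩

lemma translate_trans (g h : V ≃ₗ[F] V) (X : Set (Submodule F V)) :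
    translate h (translate g X) = translate (g.trans h) X := by
  ext W
  rw [mem_translate, mem_translate, mem_translate]
  rfl

lemma translate_refl (X : Set (Submodule F V)) : translate (LinearEquiv.refl F V) X = X := by
  ext W
  rw [mem_translate]
  rfl

lemma translate_symm (g : V ≃ₗ[F] V) (X : Set (Submodule F V)) :
    translate g.symm (translate g X) = X := by
  rw [translate_trans, LinearEquiv.self_trans_symm, translate_refl]

lemma translate_injective (g : V ≃ₗ[F] V) :
    Function.Injective (translate g : Set (Submodule F V) → _) :=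
  Function.LeftInverse.injective (g := translate g.symm) (translate_symm g)

/-- Transitivity up to `2` follows if every pair of distinct translates can be mapped to a given
pair. -/
lemma kTransitive_of_le_two {X : Set (Submodule F V)} {x0 x1 : Set (Submodule F V)}
    (h : ∀ y0 ∈ orbit X, ∀ y1 ∈ orbit X, y0 ≠ y1 →
      ∃ g : V ≃ₗ[F] V, translate g y0 = x0 ∧ translate g y1 = x1) {k : ℕ} (hk : k ≤ 2) :
    KTransitive k (orbit X) := by
  intro x y hx hy hxo hyo
  rcases Nat.lt_or_ge k 2 with h2 | h2
  · rcases Nat.lt_or_ge k 1 with h1 | h1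
    · have : k = 0 := by omega
      subst this
      exact ⟨LinearEquiv.refl F V, fun i => i.elim0⟩
    · have : k = 1 := by omega
      subst this
      obtain ⟨a, ha⟩ := hxo 0
      obtain ⟨b, hb⟩ := hyo 0
      refine ⟨a.symm.trans b, fun i => ?_⟩
      have hi : i = 0 := Subsingleton.elim _ _
      rw [hi, ← translate_trans, ha, translate_symm, hb]
  · have : k = 2 := by omega
    subst this
    obtain ⟨g, hg0, hg1⟩ := h _ (hxo 0) _ (hxo 1) (fun h => absurd (hx h) (by decide))
    obtain ⟨g', hg0', hg1'⟩ := h _ (hyo 0) _ (hyo 1) (fun h => absurd (hy h) (by decide))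
    refine ⟨g.trans g'.symm, fun i => ?_⟩
    fin_cases i
    · change translate (g.trans g'.symm) (x 0) = y 0
      rw [← translate_trans, hg0, ← hg0', translate_symm]
    · change translate (g.trans g'.symm) (x 1) = y 1
      rw [← translate_trans, hg1, ← hg1', translate_symm]

/-- Non-transitivity beyond `2` follows from an invariant of triples. -/
lemma not_kTransitive {X : Set (Submodule F V)} (s : ℕ → Set (Submodule F V))
    (d : Set (Submodule F V)) (hs : ∀ i, s i ∈ orbit X) (hd : d ∈ orbit X)
    (hinj : Function.Injective s) (hds : ∀ i, i ≠ 2 → s i ≠ d)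
    (P : Set (Submodule F V) → Set (Submodule F V) → Set (Submodule F V) → Prop)
    (hP : ∀ (g : V ≃ₗ[F] V) x y z, P x y z → P (translate g x) (translate g y) (translate g z))
    (h1 : P (s 0) (s 1) (s 2)) (h2 : ¬ P (s 0) (s 1) d) {k : ℕ} (hk : 3 ≤ k) :
    ¬ KTransitive k (orbit X) := by
  intro hT
  let x : Fin k → Set (Submodule F V) := fun i => s i.val
  let y : Fin k → Set (Submodule F V) := fun i => if i.val = 2 then d else s i.val
  obtain ⟨g, hg⟩ := hT x y (fun i j hij => Fin.ext (hinj hij)) (by
    intro i j hij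
    change (if i.val = 2 then d else s i.val) = (if j.val = 2 then d else s j.val) at hij
    by_cases hi : i.val = 2
    · by_cases hj : j.val = 2
      · exact Fin.ext (hi.trans hj.symm)
      · rw [if_pos hi, if_neg hj] at hij
        exact absurd hij.symm (hds _ hj)
    · by_cases hj : j.val = 2
      · rw [if_neg hi, if_pos hj] at hij
        exact absurd hij (hds _ hi)
      · rw [if_neg hi, if_neg hj] at hij
        exact Fin.ext (hinj hij)) (fun i => hs _) (by
    intro i
    change (if i.val = 2 then d else s i.val) ∈ orbit X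
    split_ifs
    · exact hd
    · exact hs _)
  apply h2
  have e0 : translate g (s 0) = s 0 := hg ⟨0, by omega⟩
  have e1 : translate g (s 1) = s 1 := hg ⟨1, by omega⟩
  have e2 : translate g (s 2) = d := hg ⟨2, by omega⟩
  have h3 := hP g _ _ _ h1
  rwa [e0, e1, e2] at h3

end Q6.Filt
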