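import Pool.Agent.Q6.Filt.Rank

/-!
# The degree of transitivity on the translates of a maximal filter
-/

namespace Q6.Filt

open Cardinal

universe u v

variable {F : Type u} {V : Type v} [Field F] [AddCommGroup V] [Module F V]

/-! ### Maximal filters -/

lemma IsMaxFilt.exists_disjoint {X : Set (Submodule F V)} (hX : IsMaxFilt X) {U : Submodule F V}
    (hU : U ∉ X) : ∃ B ∈ X, B ⊓ U = ⊥ := by
  by_contra hc
  push Not at hc
  obtain ⟨⟨htop, hbot, hup, hinf⟩, hmax⟩ := hX
  have hY : IsFilt {W : Submodule F V | ∃ B ∈ X, B ⊓ U ≤ W} := by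
    refine ⟨⟨⊤, htop, le_top⟩, ?_, ?_, ?_⟩
    · rintro ⟨B, hB, h⟩
      exact hc B hB (le_bot_iff.1 h)
    · rintro W ⟨B, hB, h⟩ W' hW
      exact ⟨B, hB, h.trans hW⟩
    · rintro W ⟨B, hB, h⟩ W' ⟨B', hB', h'⟩
      exact ⟨B ⊓ B', hinf _ hB _ hB', le_inf
        ((inf_le_inf_right U inf_le_left).trans h) ((inf_le_inf_right U inf_le_right).trans h')⟩
  have := hmax _ hY (fun B hB => ⟨B, hB, inf_le_left⟩)
  apply hU
  rw [← this]
  exact ⟨⊤, htop, inf_le_right⟩

lemma IsMaxFilt.exists_disjoint_of_ne {X Y : Set (Submodule F V)} (hX : IsMaxFilt X)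
    (hY : IsMaxFilt Y) (hXY : X ≠ Y) : ∃ A ∈ X, ∃ B ∈ Y, A ⊓ B = ⊥ := by
  have : ¬ Y ⊆ X := fun h => hXY (hY.2 X hX.1 h)
  obtain ⟨B, hB, hBX⟩ := Set.not_subset.1 this
  obtain ⟨A, hA, h⟩ := hX.exists_disjoint hBX
  exact ⟨A, hA, B, hB, h⟩

lemma IsFilt.tr {X : Set (Submodule F V)} (hX : IsFilt X) (g : V ≃ₗ[F] V) :
    IsFilt (translate g X) := by
  obtain ⟨htop, hbot, hup, hinf⟩ := hX
  refine ⟨?_, ?_, ?_, ?_⟩
  · rw [mem_translate, Submodule.comap_top]
    exact htop
  · rw [mem_translate]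
    have : Submodule.comap (g : V →ₗ[F] V) ⊥ = ⊥ := by
      rw [← LinearMap.ker]
      exact LinearMap.ker_eq_bot.2 g.injective
    rwa [this]
  · intro U hU W hW
    rw [mem_translate] at hU ⊢
    exact hup _ hU _ (Submodule.comap_mono hW)
  · intro U hU W hW
    rw [mem_translate] at hU hW ⊢
    rw [Submodule.comap_inf]
    exact hinf _ hU _ hW

lemma IsMaxFilt.tr {X : Set (Submodule F V)} (hX : IsMaxFilt X) (g : V ≃ₗ[F] V) :
    IsMaxFilt (translate g X) := by
  refine ⟨hX.1.tr g, fun Y hY hXY => ?_⟩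
  have h1 : translate g.symm Y = X := by
    apply hX.2 _ (hY.tr g.symm)
    rw [← translate_symm g X]
    rintro _ ⟨U, hU, rfl⟩
    exact ⟨U, hXY hU, rfl⟩
  rw [← h1, translate_trans, LinearEquiv.symm_trans_self, translate_refl]

lemma IsMaxFilt.of_mem_orbit {X Y : Set (Submodule F V)} (hX : IsMaxFilt X) (hY : Y ∈ orbit X) :
    IsMaxFilt Y := by
  obtain ⟨g, rfl⟩ := hY
  exact hX.tr g

lemma translate_subset_of_eqOn {X : Set (Submodule F V)} (hX : IsFilt X) {B : Submodule F V}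
    (hB : B ∈ X) (g h : V ≃ₗ[F] V) (hgh : ∀ b ∈ B, g b = h b) : translate g X ⊆ translate h X := by
  intro W hW
  rw [mem_translate] at hW ⊢
  obtain ⟨htop, hbot, hup, hinf⟩ := hX
  refine hup _ (hinf _ hW _ hB) _ ?_
  rintro x ⟨hx, hxB⟩
  have hx' : g x ∈ W := hx
  rw [hgh x hxB] at hx'
  exact hx'

lemma translate_eq_of_eqOn {X : Set (Submodule F V)} (hX : IsFilt X) {B : Submodule F V}
    (hB : B ∈ X) (g h : V ≃ₗ[F] V) (hgh : ∀ b ∈ B, g b = h b) : translate g X = translate h X :=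
  Set.Subset.antisymm (translate_subset_of_eqOn hX hB g h hgh)
    (translate_subset_of_eqOn hX hB h g (fun b hb => (hgh b hb).symm))

lemma IsMaxFilt.exists_codim {X : Set (Submodule F V)} (hX : IsMaxFilt X) (S : Split F V) :
    ∃ B ∈ X, Module.rank F (V ⧸ B) = Module.rank F V := by
  have h01 : LinearMap.range (S.e 0) ⊓ LinearMap.range (S.e 1) = ⊥ := by
    rw [eq_bot_iff]
    rintro _ ⟨⟨x, rfl⟩, ⟨y, hy⟩⟩
    have := congrArg (S.p 0) hy
    rw [S.pe, S.pe' 0 1 _ (by decide)] at this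
    rw [← this, map_zero]
    exact Submodule.zero_mem _
  have hr : ∀ i, Module.rank F (LinearMap.range (S.e i)) = Module.rank F V := fun i =>
    rank_range_of_injective _ (S.e_injective i)
  by_cases hU : LinearMap.range (S.e 0) ∈ X
  · exact ⟨_, hU, rank_quot_eq_of_disjoint h01 (hr 1).ge⟩
  · obtain ⟨B, hB, h⟩ := hX.exists_disjoint hU
    exact ⟨B, hB, rank_quot_eq_of_disjoint h (hr 0).ge⟩

/-- Independence of three sets of subspaces. -/
def Indep3 (x y z : Set (Submodule F V)) : Prop :=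
  ∃ A ∈ x, ∃ B ∈ y, ∃ C ∈ z, ∀ a ∈ A, ∀ b ∈ B, ∀ c ∈ C, a + b + c = 0 → a = 0 ∧ b = 0 ∧ c = 0

lemma Indep3.tr {x y z : Set (Submodule F V)} (h : Indep3 x y z) (g : V ≃ₗ[F] V) :
    Indep3 (translate g x) (translate g y) (translate g z) := by
  obtain ⟨A, hA, B, hB, C, hC, h⟩ := h
  refine ⟨_, map_mem_translate hA, _, map_mem_translate hB, _, map_mem_translate hC, ?_⟩
  rintro _ ⟨a, ha, rfl⟩ _ ⟨b, hb, rfl⟩ _ ⟨c, hc, rfl⟩ hs
  have hs' : g (a + b + c) = 0 := by
    rw [map_add, map_add]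
    exact hs
  rw [LinearEquiv.map_eq_zero_iff] at hs'
  obtain ⟨h1, h2, h3⟩ := h a ha b hb c hc hs'
  rw [h1, h2, h3]
  exact ⟨map_zero _, map_zero _, map_zero _⟩

/-- The extension of an injective map defined on a member of the filter. -/
lemma exists_ext_on {B : Submodule F V} (hB : Module.rank F (V ⧸ B) = Module.rank F V)
    (f : V →ₗ[F] V) (hf : Function.Injective f) {T : Submodule F V}
    (hT : LinearMap.range f ⊓ T = ⊥) (hT' : Module.rank F V ≤ Module.rank F T) :
    ∃ g : V ≃ₗ[F] V, ∀ b ∈ B, g b = f b := by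
  have h1 : LinearMap.range (f ∘ₗ B.subtype) ⊓ T = ⊥ := by
    rw [eq_bot_iff, ← hT]
    refine inf_le_inf_right _ ?_
    rintro _ ⟨x, rfl⟩
    exact ⟨x, rfl⟩
  obtain ⟨g, hg⟩ := exists_extend B.subtype (f ∘ₗ B.subtype) B.subtype_injective
    (hf.comp B.subtype_injective) (by
      rw [rank_quot_eq_of_disjoint h1 hT', Submodule.range_subtype, hB])
  exact ⟨g, fun b hb => hg ⟨b, hb⟩⟩

lemma Split.disj (S : Split F V) {j : ℕ} (f : V →ₗ[F] V)
    (hf : ∀ v, S.p j (f v) = 0) : LinearMap.range f ⊓ LinearMap.range (S.e j) = ⊥ := by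
  rw [eq_bot_iff]
  rintro _ ⟨⟨x, rfl⟩, ⟨y, hy⟩⟩
  have := congrArg (S.p j) hy
  rw [S.pe, hf] at this
  rw [← hy, this, map_zero]
  exact Submodule.zero_mem _

lemma IsMaxFilt.data {X : Set (Submodule F V)} (hX : IsMaxFilt X) (S : Split F V) :
    ∃ B ∈ X, ∃ g : ℕ → V ≃ₗ[F] V, ∃ h : V ≃ₗ[F] V,
      (∀ i, ∀ b ∈ B, g i b = S.e i b) ∧ ∀ b ∈ B, h b = S.e 0 b + S.e 1 b := by
  obtain ⟨B, hB, hBr⟩ := hX.exists_codim S
  have hr : ∀ i, Module.rank F (LinearMap.range (S.e i)) = Module.rank F V := fun i =>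
    rank_range_of_injective _ (S.e_injective i)
  have h1 : ∀ i, ∃ g : V ≃ₗ[F] V, ∀ b ∈ B, g b = S.e i b := by
    intro i
    exact exists_ext_on hBr _ (S.e_injective i) (S.disj (j := i + 1) _
      (fun v => S.pe' _ _ _ (by omega))) (hr _).ge
  choose g hg using h1
  have h2 : ∃ h : V ≃ₗ[F] V, ∀ b ∈ B, h b = (S.e 0 + S.e 1) b := by
    refine exists_ext_on hBr _ ?_ (S.disj (j := 2) _
      (fun v => ?_)) (hr _).ge
    · apply Function.LeftInverse.injective (g := S.p 0)
      intro v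
      rw [LinearMap.add_apply, map_add, S.pe, S.pe' _ _ _ (by decide), add_zero]
    · rw [LinearMap.add_apply, map_add, S.pe' _ _ _ (by decide), S.pe' _ _ _ (by decide), add_zero]
  obtain ⟨h, hh⟩ := h2
  exact ⟨B, hB, g, h, hg, hh⟩

/-- The extension with two prescribed restrictions. -/
lemma IsMaxFilt.two_trans {X : Set (Submodule F V)} (hV : ℵ₀ ≤ Module.rank F V)
    (hX : IsMaxFilt X) (S : Split F V) {B : Submodule F V} (hB : B ∈ X) {g0 g1 : V ≃ₗ[F] V}
    (h0 : ∀ b ∈ B, g0 b = S.e 0 b) (h1 : ∀ b ∈ B, g1 b = S.e 1 b) :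
    ∀ y0 ∈ orbit X, ∀ y1 ∈ orbit X, y0 ≠ y1 →
      ∃ g : V ≃ₗ[F] V, translate g y0 = translate g0 X ∧ translate g y1 = translate g1 X := by
  intro y0 hy0 y1 hy1 hne
  obtain ⟨A0, hA0, A1, hA1, hdis⟩ :=
    (hX.of_mem_orbit hy0).exists_disjoint_of_ne (hX.of_mem_orbit hy1) hne
  obtain ⟨a0, rfl⟩ := hy0
  obtain ⟨a1, rfl⟩ := hy1
  rw [mem_translate] at hA0 hA1
  have hinf := hX.1.2.2.2
  set B' : Submodule F V := B ⊓ (A0.comap (a0 : V →ₗ[F] V) ⊓ A1.comap (a1 : V →ₗ[F] V)) with hB'def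
  have hB' : B' ∈ X := hinf _ hB _ (hinf _ hA0 _ hA1)
  have hind : ∀ b ∈ B', ∀ c ∈ B', a0 b + a1 c = 0 → b = 0 ∧ c = 0 := by
    intro b hb c hc hbc
    have h2 : a0 b ∈ A0 ⊓ A1 := by
      refine ⟨hb.2.1, ?_⟩
      have h3 : a1 c ∈ A1 := hc.2.2
      have h4 : a0 b = - a1 c := eq_neg_of_add_eq_zero_left hbc
      rw [h4]
      exact A1.neg_mem h3
    rw [hdis, Submodule.mem_bot, LinearEquiv.map_eq_zero_iff] at h2
    refine ⟨h2, ?_⟩
    rw [h2, map_zero, zero_add, LinearEquiv.map_eq_zero_iff] at hbc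
    exact hbc
  -- the map with both prescribed restrictions
  let Φ : ∀ B'' : Submodule F V, (B'' × B'') →ₗ[F] V := fun B'' =>
    LinearMap.coprod ((a0 : V →ₗ[F] V) ∘ₗ B''.subtype) ((a1 : V →ₗ[F] V) ∘ₗ B''.subtype)
  have hΦ : ∀ (B'' : Submodule F V) (x : B'' × B''), Φ B'' x = a0 (x.1 : V) + a1 (x.2 : V) :=
    fun _ _ => rfl
  have key : ∃ B'' ∈ X, B'' ≤ B' ∧
      Module.rank F (V ⧸ LinearMap.range (Φ B'')) = Module.rank F V := by
    rcases (Submodule.rank_le B').lt_or_eq with hlt | heq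
    · refine ⟨B', hB', le_rfl, ?_⟩
      have h2 : Module.rank F (LinearMap.range (Φ B')) < Module.rank F V := by
        refine (rank_range_le _).trans_lt ?_
        rw [rank_prod']
        exact Cardinal.add_lt_of_lt hV hlt hlt
      have h3 := Submodule.rank_quotient_add_rank (LinearMap.range (Φ B'))
      by_contra hc
      have h4 : Module.rank F (V ⧸ LinearMap.range (Φ B')) < Module.rank F V :=
        lt_of_le_of_ne (rank_quotient_le _) hc
      have h5 := Cardinal.add_lt_of_lt hV h4 h2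
      rw [h3] at h5
      exact lt_irrefl _ h5
    · -- split `B'`
      obtain ⟨S'⟩ := nonempty_split (F := F) (V := B') (by rw [heq]; exact hV)
      set T : Submodule F V := (LinearMap.range (S'.e 0)).map B'.subtype with hT
      set T' : Submodule F V := (LinearMap.range (S'.e 1)).map B'.subtype with hT'
      have hTr : ∀ i, Module.rank F ((LinearMap.range (S'.e i)).map B'.subtype) =
          Module.rank F V := by
        intro i
        rw [← heq, ← rank_range_of_injective _ (S'.e_injective i)]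
        exact (Submodule.equivMapOfInjective _ B'.subtype_injective _).rank_eq.symm
      have hTle : ∀ i, (LinearMap.range (S'.e i)).map B'.subtype ≤ B' := by
        intro i
        rintro _ ⟨x, -, rfl⟩
        exact x.2
      have hTT : T ⊓ T' = ⊥ := by
        rw [hT, hT', ← Submodule.map_inf _ B'.subtype_injective,
          S'.disj (j := 1) _ (fun v => S'.pe' _ _ _ (by decide)),
          Submodule.map_bot]
      have claim : ∃ B'' ∈ X, B'' ≤ B' ∧ ∃ U ≤ B', U ⊓ B'' = ⊥ ∧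
          Module.rank F U = Module.rank F V := by
        by_cases hTX : T ∈ X
        · refine ⟨T, hTX, hTle 0, T', hTle 1, ?_, hTr 1⟩
          rw [inf_comm]
          exact hTT
        · obtain ⟨C, hC, hCT⟩ := hX.exists_disjoint hTX
          refine ⟨C ⊓ B', hinf _ hC _ hB', inf_le_right, T, hTle 0, ?_, hTr 0⟩
          rw [eq_bot_iff, ← hCT]
          exact le_inf (inf_le_right.trans inf_le_left) inf_le_left
      obtain ⟨B'', hB'', hle, U, hU, hUB, hUr⟩ := claim
      refine ⟨B'', hB'', hle, ?_⟩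
      refine rank_quot_eq_of_disjoint (T := U.map (a0 : V →ₗ[F] V)) ?_ ?_
      · rw [eq_bot_iff]
        rintro _ ⟨⟨x, hx⟩, ⟨t, ht, rfl⟩⟩
        rw [hΦ] at hx
        have h2 : a0 ((x.1 : V) - t) + a1 (x.2 : V) = 0 := by
          rw [map_sub, sub_add_eq_add_sub, hx]
          exact sub_self _
        obtain ⟨h3, h4⟩ := hind _ (B'.sub_mem (hle x.1.2) (hU ht)) _ (hle x.2.2) h2
        have h5 : t ∈ U ⊓ B'' := ⟨ht, by rw [← sub_eq_zero.1 h3]; exact x.1.2⟩
        rw [hUB, Submodule.mem_bot] at h5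
        rw [h5, map_zero]
        exact Submodule.zero_mem _
      · rw [← hUr]
        exact (Submodule.equivMapOfInjective _ a0.injective U).rank_eq.le
  obtain ⟨B'', hB'', hle, hrk⟩ := key
  let Ψ : (B'' × B'') →ₗ[F] V := LinearMap.coprod (S.e 0 ∘ₗ B''.subtype) (S.e 1 ∘ₗ B''.subtype)
  have hΨ : ∀ x : B'' × B'', Ψ x = S.e 0 (x.1 : V) + S.e 1 (x.2 : V) := fun _ => rfl
  have hΦi : Function.Injective (Φ B'') := by
    rw [← LinearMap.ker_eq_bot, eq_bot_iff]
    intro x hx
    rw [LinearMap.mem_ker, hΦ] at hx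
    obtain ⟨h2, h3⟩ := hind _ (hle x.1.2) _ (hle x.2.2) hx
    rw [Submodule.mem_bot]
    exact Prod.ext (Subtype.ext h2) (Subtype.ext h3)
  have hΨi : Function.Injective Ψ := by
    rw [← LinearMap.ker_eq_bot, eq_bot_iff]
    intro x hx
    rw [LinearMap.mem_ker, hΨ] at hx
    have h2 := congrArg (S.p 0) hx
    have h3 := congrArg (S.p 1) hx
    rw [map_add, S.pe, S.pe' _ _ _ (by decide), add_zero, map_zero] at h2
    rw [map_add, S.pe, S.pe' _ _ _ (by decide), zero_add, map_zero] at h3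
    rw [Submodule.mem_bot]
    exact Prod.ext (Subtype.ext h2) (Subtype.ext h3)
  have hΨr : Module.rank F (V ⧸ LinearMap.range Ψ) = Module.rank F V := by
    refine rank_quot_eq_of_disjoint (T := LinearMap.range (S.e 2)) ?_
      (rank_range_of_injective _ (S.e_injective 2)).ge
    rw [eq_bot_iff]
    rintro _ ⟨⟨x, rfl⟩, ⟨y, hy⟩⟩
    rw [hΨ] at hy ⊢
    have := congrArg (S.p 2) hy
    rw [S.pe, map_add, S.pe' _ _ _ (by decide), S.pe' _ _ _ (by decide), add_zero] at this
    rw [← hy, this, map_zero]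
    exact Submodule.zero_mem _
  obtain ⟨g, hg⟩ := exists_extend (Φ B'') Ψ hΦi hΨi (by rw [hrk, hΨr])
  refine ⟨g, ?_, ?_⟩
  · rw [translate_trans]
    refine translate_eq_of_eqOn hX.1 hB'' _ _ (fun b hb => ?_)
    have h2 := hg (⟨b, hb⟩, 0)
    rw [hΦ, hΨ] at h2
    simp only [ZeroMemClass.coe_zero, map_zero, add_zero] at h2
    rw [h0 b (hle hb).1]
    exact h2
  · rw [translate_trans]
    refine translate_eq_of_eqOn hX.1 hB'' _ _ (fun b hb => ?_)
    have h2 := hg (0, ⟨b, hb⟩)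
    rw [hΦ, hΨ] at h2
    simp only [ZeroMemClass.coe_zero, map_zero, zero_add] at h2
    rw [h1 b (hle hb).1]
    exact h2

/-- The degree of transitivity on the translates of a maximal filter is two. -/
theorem filter_degree {X : Set (Submodule F V)} (hV : ℵ₀ ≤ Module.rank F V) (hX : IsMaxFilt X)
    (k : ℕ) : KTransitive k (orbit X) ↔ k ≤ 2 := by
  obtain ⟨S⟩ := nonempty_split hV
  obtain ⟨B, hB, g, h, hg, hh⟩ := hX.data S
  obtain ⟨⟨htop, hbot, hup, hinf⟩, hmax⟩ := id hX
  constructor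
  · intro hk
    by_contra hc
    have hs : ∀ i, translate (g i) X ∈ orbit X := fun i => ⟨g i, rfl⟩
    have hd : translate h X ∈ orbit X := ⟨h, rfl⟩
    refine not_kTransitive (fun i => translate (g i) X) (translate h X) hs hd ?_ ?_ Indep3
      (fun g x y z h => h.tr g) ?_ ?_ (by omega : 3 ≤ k) hk
    · intro i j hij
      by_contra hne
      have h1 : B.map (g i : V →ₗ[F] V) ∈ translate (g i) X := map_mem_translate hB
      have h2 : B.map (g j : V →ₗ[F] V) ∈ translate (g i) X := by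
        have : translate (g i) X = translate (g j) X := hij
        rw [this]
        exact map_mem_translate hB
      have h3 := (hX.of_mem_orbit (hs i)).1.2.2.2 _ h1 _ h2
      have h4 : B.map (g i : V →ₗ[F] V) ⊓ B.map (g j : V →ₗ[F] V) = ⊥ := by
        rw [eq_bot_iff]
        rintro _ ⟨⟨x, hx, rfl⟩, ⟨y, hy, hxy⟩⟩
        have hxy' : g j y = g i x := hxy
        rw [hg j y hy, hg i x hx] at hxy'
        have := congrArg (S.p i) hxy'
        rw [S.pe, S.pe' _ _ _ hne] at this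
        rw [← this, map_zero]
        exact Submodule.zero_mem _
      rw [h4] at h3
      exact (hX.of_mem_orbit (hs i)).1.2.1 h3
    · intro i _ hij
      have h1 : B.map (g i : V →ₗ[F] V) ∈ translate (g i) X := map_mem_translate hB
      have h2 : B.map (h : V →ₗ[F] V) ∈ translate (g i) X := by
        have : translate (g i) X = translate h X := hij
        rw [this]
        exact map_mem_translate hB
      have h3 := (hX.of_mem_orbit (hs i)).1.2.2.2 _ h1 _ h2
      have h4 : B.map (g i : V →ₗ[F] V) ⊓ B.map (h : V →ₗ[F] V) = ⊥ := by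
        rw [eq_bot_iff]
        rintro _ ⟨⟨x, hx, rfl⟩, ⟨y, hy, hxy⟩⟩
        have hxy' : h y = g i x := hxy
        rw [hh y hy, hg i x hx] at hxy'
        have hy0 : y = 0 := by
          by_cases hi : i = 0
          · subst hi
            have := congrArg (S.p 1) hxy'
            rw [map_add, S.pe, S.pe' _ _ _ (by decide), zero_add,
              S.pe' _ _ _ (by decide)] at this
            exact this
          · have := congrArg (S.p 0) hxy'
            rw [map_add, S.pe, S.pe' _ _ _ (by decide), add_zero,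
              S.pe' _ _ _ (fun h => hi h.symm)] at this
            exact this
        rw [← hxy, hy0, map_zero]
        exact Submodule.zero_mem _
      rw [h4] at h3
      exact (hX.of_mem_orbit (hs i)).1.2.1 h3
    · refine ⟨_, map_mem_translate hB, _, map_mem_translate hB, _, map_mem_translate hB, ?_⟩
      rintro _ ⟨a, ha, rfl⟩ _ ⟨b, hb, rfl⟩ _ ⟨c, hc, rfl⟩ hs
      have hs' : g 0 a + g 1 b + g 2 c = 0 := hs
      change g 0 a = 0 ∧ g 1 b = 0 ∧ g 2 c = 0
      rw [hg 0 a ha, hg 1 b hb, hg 2 c hc] at hs' ⊢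
      have e0 := congrArg (S.p 0) hs'
      have e1 := congrArg (S.p 1) hs'
      have e2 := congrArg (S.p 2) hs'
      rw [map_add, map_add, S.pe, S.pe' _ _ _ (by decide), S.pe' _ _ _ (by decide), map_zero,
        add_zero, add_zero] at e0
      rw [map_add, map_add, S.pe, S.pe' _ _ _ (by decide), S.pe' _ _ _ (by decide), map_zero,
        zero_add, add_zero] at e1
      rw [map_add, map_add, S.pe, S.pe' _ _ _ (by decide), S.pe' _ _ _ (by decide), map_zero,
        zero_add, zero_add] at e2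
      rw [e0, e1, e2]
      exact ⟨map_zero _, map_zero _, map_zero _⟩
    · rintro ⟨A, hA, B', hB', C, hC, hind⟩
      rw [mem_translate] at hA hB' hC
      have hD := hinf _ hB _ (hinf _ hA _ (hinf _ hB' _ hC))
      set D := B ⊓ (A.comap (g 0 : V →ₗ[F] V) ⊓ (B'.comap (g 1 : V →ₗ[F] V) ⊓
        C.comap (h : V →ₗ[F] V))) with hDdef
      have hDne : D ≠ ⊥ := fun h => hbot (h ▸ hD)
      obtain ⟨b, hb, hb0⟩ := Submodule.exists_mem_ne_zero_of_ne_bot hDne
      obtain ⟨hbB, hbA, hbB', hbC⟩ := hb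
      have hA' : g 0 b ∈ A := hbA
      have hB'' : g 1 b ∈ B' := hbB'
      have hC' : h b ∈ C := hbC
      have := (hind _ hA' _ hB'' _ (C.neg_mem hC') (by
        rw [hh b hbB, hg 0 b hbB, hg 1 b hbB, add_neg_cancel])).1
      rw [LinearEquiv.map_eq_zero_iff] at this
      exact hb0 this
  · intro hk
    exact kTransitive_of_le_two (hX.two_trans hV S hB (hg 0) (hg 1)) hk

end Q6.Filt
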