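import Pool.Agent.Q6.Filt.Rank

/-!
# The degree of transitivity on the translates of a maximal ideal
-/

namespace Q6.Filt

open Cardinal

universe u v

variable {F : Type u} {V : Type v} [Field F] [AddCommGroup V] [Module F V]

/-! ### Maximal ideals -/

lemma IsMaxIdl.exists_codisjoint {X : Set (Submodule F V)} (hX : IsMaxIdl X) {U : Submodule F V}
    (hU : U ∉ X) : ∃ B ∈ X, B ⊔ U = ⊤ := by
  by_contra hc
  push Not at hc
  obtain ⟨⟨hbot, htop, hdown, hsup⟩, hmax⟩ := hX
  have hY : IsIdl {W : Submodule F V | ∃ B ∈ X, W ≤ B ⊔ U} := by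
    refine ⟨⟨⊥, hbot, bot_le⟩, ?_, ?_, ?_⟩
    · rintro ⟨B, hB, h⟩
      exact hc B hB (top_le_iff.1 h)
    · rintro W ⟨B, hB, h⟩ W' hW
      exact ⟨B, hB, hW.trans h⟩
    · rintro W ⟨B, hB, h⟩ W' ⟨B', hB', h'⟩
      exact ⟨B ⊔ B', hsup _ hB _ hB', sup_le
        (h.trans (sup_le_sup_right le_sup_left U)) (h'.trans (sup_le_sup_right le_sup_right U))⟩
  have := hmax _ hY (fun B hB => ⟨B, hB, le_sup_left⟩)
  apply hU
  rw [← this]
  exact ⟨⊥, hbot, le_sup_right⟩

lemma IsMaxIdl.exists_codisjoint_of_ne {X Y : Set (Submodule F V)} (hX : IsMaxIdl X)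
    (hY : IsMaxIdl Y) (hXY : X ≠ Y) : ∃ A ∈ X, ∃ B ∈ Y, A ⊔ B = ⊤ := by
  have : ¬ Y ⊆ X := fun h => hXY (hY.2 X hX.1 h)
  obtain ⟨B, hB, hBX⟩ := Set.not_subset.1 this
  obtain ⟨A, hA, h⟩ := hX.exists_codisjoint hBX
  exact ⟨A, hA, B, hB, h⟩

lemma comap_sup_equiv (g : V ≃ₗ[F] V) (U W : Submodule F V) :
    (U ⊔ W).comap (g : V →ₗ[F] V) = U.comap (g : V →ₗ[F] V) ⊔ W.comap (g : V →ₗ[F] V) := by
  have h : ∀ Z : Submodule F V, Z.comap (g : V →ₗ[F] V) = Z.map (g.symm : V →ₗ[F] V) := by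
    intro Z
    exact (Submodule.map_equiv_eq_comap_symm g.symm Z).symm
  rw [h, h, h, Submodule.map_sup]

lemma IsIdl.tr {X : Set (Submodule F V)} (hX : IsIdl X) (g : V ≃ₗ[F] V) :
    IsIdl (translate g X) := by
  obtain ⟨hbot, htop, hdown, hsup⟩ := hX
  refine ⟨?_, ?_, ?_, ?_⟩
  · rw [mem_translate]
    have : Submodule.comap (g : V →ₗ[F] V) ⊥ = ⊥ := by
      rw [← LinearMap.ker]
      exact LinearMap.ker_eq_bot.2 g.injective
    rwa [this]
  · rw [mem_translate, Submodule.comap_top]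
    exact htop
  · intro U hU W hW
    rw [mem_translate] at hU ⊢
    exact hdown _ hU _ (Submodule.comap_mono hW)
  · intro U hU W hW
    rw [mem_translate] at hU hW ⊢
    rw [comap_sup_equiv]
    exact hsup _ hU _ hW

lemma IsMaxIdl.tr {X : Set (Submodule F V)} (hX : IsMaxIdl X) (g : V ≃ₗ[F] V) :
    IsMaxIdl (translate g X) := by
  refine ⟨hX.1.tr g, fun Y hY hXY => ?_⟩
  have h1 : translate g.symm Y = X := by
    apply hX.2 _ (hY.tr g.symm)
    rw [← translate_symm g X]
    rintro _ ⟨U, hU, rfl⟩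
    exact ⟨U, hXY hU, rfl⟩
  rw [← h1, translate_trans, LinearEquiv.symm_trans_self, translate_refl]

lemma IsMaxIdl.of_mem_orbit {X Y : Set (Submodule F V)} (hX : IsMaxIdl X) (hY : Y ∈ orbit X) :
    IsMaxIdl Y := by
  obtain ⟨g, rfl⟩ := hY
  exact hX.tr g

/-- Two maps whose inverses agree modulo a member of the ideal give the same translate. -/
lemma translate_subset_of_mod {X : Set (Submodule F V)} (hX : IsIdl X) {B : Submodule F V}
    (hB : B ∈ X) (g h : V ≃ₗ[F] V) (hgh : ∀ v, g.symm v - h.symm v ∈ B) :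
    translate g X ⊆ translate h X := by
  intro W hW
  rw [mem_translate] at hW ⊢
  obtain ⟨hbot, htop, hdown, hsup⟩ := hX
  refine hdown _ (hsup _ hW _ hB) _ ?_
  intro x hx
  have hx' : h x ∈ W := hx
  have h1 : x = g.symm (h x) + -(g.symm (h x) - h.symm (h x)) := by
    rw [LinearEquiv.symm_apply_apply]
    abel
  rw [h1]
  refine Submodule.add_mem_sup ?_ (B.neg_mem (hgh _))
  change g (g.symm (h x)) ∈ W
  rwa [LinearEquiv.apply_symm_apply]

lemma translate_eq_of_mod {X : Set (Submodule F V)} (hX : IsIdl X) {B : Submodule F V}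
    (hB : B ∈ X) (g h : V ≃ₗ[F] V) (hgh : ∀ v, g.symm v - h.symm v ∈ B) :
    translate g X = translate h X :=
  Set.Subset.antisymm (translate_subset_of_mod hX hB g h hgh)
    (translate_subset_of_mod hX hB h g (fun v => by
      rw [← neg_sub]
      exact B.neg_mem (hgh v)))

lemma IsMaxIdl.exists_rank {X : Set (Submodule F V)} (hX : IsMaxIdl X) (S : Split F V) :
    ∃ B ∈ X, Module.rank F B = Module.rank F V := by
  have h01 : LinearMap.range (S.e 0) ⊓ LinearMap.range (S.e 1) = ⊥ := by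
    rw [eq_bot_iff]
    rintro _ ⟨⟨x, rfl⟩, ⟨y, hy⟩⟩
    have := congrArg (S.p 0) hy
    rw [S.pe, S.pe' 0 1 _ (by decide)] at this
    rw [← this, map_zero]
    exact Submodule.zero_mem _
  have hr : ∀ i, Module.rank F (LinearMap.range (S.e i)) = Module.rank F V := fun i =>
    rank_range_of_injective _ (S.e_injective i)
  by_cases hU : LinearMap.range (S.e 0) ∈ X
  · exact ⟨_, hU, hr 0⟩
  · obtain ⟨B, hB, h⟩ := hX.exists_codisjoint hU
    refine ⟨B, hB, le_antisymm (Submodule.rank_le B) ?_⟩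
    rw [← rank_quot_eq_of_disjoint h01 (hr 1).ge]
    exact rank_ge_of_sup h

/-- Coindependence of three sets of subspaces. -/
def CoIndep3 (x y z : Set (Submodule F V)) : Prop :=
  ∃ A ∈ x, ∃ B ∈ y, ∃ C ∈ z, ∀ a b c : V, ∃ t : V, t - a ∈ A ∧ t - b ∈ B ∧ t - c ∈ C

lemma CoIndep3.tr {x y z : Set (Submodule F V)} (h : CoIndep3 x y z) (g : V ≃ₗ[F] V) :
    CoIndep3 (translate g x) (translate g y) (translate g z) := by
  obtain ⟨A, hA, B, hB, C, hC, h⟩ := h
  refine ⟨_, map_mem_translate hA, _, map_mem_translate hB, _, map_mem_translate hC, ?_⟩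
  intro a b c
  obtain ⟨t, h1, h2, h3⟩ := h (g.symm a) (g.symm b) (g.symm c)
  refine ⟨g t, ⟨_, h1, ?_⟩, ⟨_, h2, ?_⟩, ⟨_, h3, ?_⟩⟩
  · change g (t - g.symm a) = g t - a
    rw [map_sub, LinearEquiv.apply_symm_apply]
  · change g (t - g.symm b) = g t - b
    rw [map_sub, LinearEquiv.apply_symm_apply]
  · change g (t - g.symm c) = g t - c
    rw [map_sub, LinearEquiv.apply_symm_apply]

/-- The lift of a surjection onto a quotient by a member of the ideal. -/
lemma exists_lift_mod {B : Submodule F V} (hB : Module.rank F B = Module.rank F V)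
    (f : V →ₗ[F] V) (hf : Function.Surjective f)
    (hT' : Module.rank F V ≤ Module.rank F (LinearMap.ker f)) :
    ∃ g : V ≃ₗ[F] V, ∀ v, g v - f v ∈ B := by
  obtain ⟨g, hg⟩ := exists_lift (B.mkQ ∘ₗ f) B.mkQ (B.mkQ_surjective.comp hf) B.mkQ_surjective (by
    rw [Submodule.ker_mkQ, hB]
    refine le_antisymm (Submodule.rank_le _) (hT'.trans (Submodule.rank_mono ?_))
    intro x hx
    rw [LinearMap.mem_ker] at hx ⊢
    rw [LinearMap.comp_apply, hx, map_zero])
  exact ⟨g, fun v => (Submodule.Quotient.eq B).1 (hg v)⟩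

lemma Split.rank_ker (S : Split F V) (j : ℕ) (f : V →ₗ[F] V) (hf : ∀ v, f (S.e j v) = 0) :
    Module.rank F V ≤ Module.rank F (LinearMap.ker f) := by
  rw [← rank_range_of_injective _ (S.e_injective j)]
  refine Submodule.rank_mono ?_
  rintro _ ⟨x, rfl⟩
  exact hf x

lemma IsMaxIdl.data {X : Set (Submodule F V)} (hX : IsMaxIdl X) (S : Split F V) :
    ∃ B ∈ X, ∃ g : ℕ → V ≃ₗ[F] V, ∃ h : V ≃ₗ[F] V,
      (∀ i, ∀ v, g i v - S.p i v ∈ B) ∧ ∀ v, h v - (S.p 0 v + S.p 1 v) ∈ B := by
  obtain ⟨B, hB, hBr⟩ := hX.exists_rank S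
  have h1 : ∀ i, ∃ g : V ≃ₗ[F] V, ∀ v, g v - S.p i v ∈ B := by
    intro i
    refine exists_lift_mod hBr _ (fun v => ⟨_, S.pe i v⟩) (S.rank_ker (i + 1) _ (fun v => ?_))
    exact S.pe' _ _ _ (by omega)
  choose g hg using h1
  have h2 : ∃ h : V ≃ₗ[F] V, ∀ v, h v - (S.p 0 + S.p 1) v ∈ B := by
    refine exists_lift_mod hBr _ (fun v => ⟨S.e 0 v, ?_⟩) (S.rank_ker 2 _ (fun v => ?_))
    · rw [LinearMap.add_apply, S.pe, S.pe' _ _ _ (by decide), add_zero]
    · rw [LinearMap.add_apply, S.pe' _ _ _ (by decide), S.pe' _ _ _ (by decide), add_zero]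
  obtain ⟨h, hh⟩ := h2
  exact ⟨B, hB, g, h, hg, hh⟩

/-- The lift with two prescribed quotients. -/
lemma IsMaxIdl.two_trans {X : Set (Submodule F V)} (hV : ℵ₀ ≤ Module.rank F V)
    (hX : IsMaxIdl X) (S : Split F V) {B : Submodule F V} (hB : B ∈ X) {g0 g1 : V ≃ₗ[F] V}
    (h0 : ∀ v, g0 v - S.p 0 v ∈ B) (h1 : ∀ v, g1 v - S.p 1 v ∈ B) :
    ∀ y0 ∈ orbit X, ∀ y1 ∈ orbit X, y0 ≠ y1 →
      ∃ g : V ≃ₗ[F] V, translate g y0 = translate g0.symm X ∧
        translate g y1 = translate g1.symm X := by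
  intro y0 hy0 y1 hy1 hne
  obtain ⟨A0, hA0, A1, hA1, hcod⟩ :=
    (hX.of_mem_orbit hy0).exists_codisjoint_of_ne (hX.of_mem_orbit hy1) hne
  obtain ⟨a0, rfl⟩ := hy0
  obtain ⟨a1, rfl⟩ := hy1
  rw [mem_translate] at hA0 hA1
  have hsup := hX.1.2.2.2
  set B' : Submodule F V := B ⊔ (A0.comap (a0 : V →ₗ[F] V) ⊔ A1.comap (a1 : V →ₗ[F] V)) with hB'def
  have hB' : B' ∈ X := hsup _ hB _ (hsup _ hA0 _ hA1)
  have hind : ∀ v : V, ∃ b ∈ B', ∃ c ∈ B', v = a0 b + a1 c := by
    intro v
    have hv : v ∈ A0 ⊔ A1 := by rw [hcod]; trivial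
    obtain ⟨x, hx, y, hy, rfl⟩ := Submodule.mem_sup.1 hv
    refine ⟨a0.symm x, ?_, a1.symm y, ?_, ?_⟩
    · apply Submodule.mem_sup_right
      apply Submodule.mem_sup_left
      change a0 (a0.symm x) ∈ A0
      rwa [LinearEquiv.apply_symm_apply]
    · apply Submodule.mem_sup_right
      apply Submodule.mem_sup_right
      change a1 (a1.symm y) ∈ A1
      rwa [LinearEquiv.apply_symm_apply]
    · rw [LinearEquiv.apply_symm_apply, LinearEquiv.apply_symm_apply]
  -- the map with both prescribed quotients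
  let Φ : ∀ B'' : Submodule F V, V →ₗ[F] (V ⧸ B'') × (V ⧸ B'') := fun B'' =>
    LinearMap.prod (B''.mkQ ∘ₗ (a0.symm : V →ₗ[F] V)) (B''.mkQ ∘ₗ (a1.symm : V →ₗ[F] V))
  have hΦ : ∀ (B'' : Submodule F V) (x : V), Φ B'' x = (B''.mkQ (a0.symm x), B''.mkQ (a1.symm x)) :=
    fun _ _ => rfl
  have key : ∃ B'' ∈ X, B' ≤ B'' ∧
      Module.rank F (LinearMap.ker (Φ B'')) = Module.rank F V := by
    rcases (rank_quotient_le B').lt_or_eq with hlt | heq
    · refine ⟨B', hB', le_rfl, ?_⟩
      have h2 : Module.rank F (V ⧸ LinearMap.ker (Φ B')) < Module.rank F V := by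
        rw [(Φ B').quotKerEquivRange.rank_eq]
        refine (Submodule.rank_le _).trans_lt ?_
        rw [rank_prod']
        exact Cardinal.add_lt_of_lt hV hlt hlt
      have h3 := Submodule.rank_quotient_add_rank (LinearMap.ker (Φ B'))
      by_contra hc
      have h4 : Module.rank F (LinearMap.ker (Φ B')) < Module.rank F V :=
        lt_of_le_of_ne (Submodule.rank_le _) hc
      have h5 := Cardinal.add_lt_of_lt hV h2 h4
      rw [h3] at h5
      exact lt_irrefl _ h5
    · -- split `V ⧸ B'`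
      obtain ⟨S'⟩ := nonempty_split (F := F) (V := V ⧸ B') (by rw [heq]; exact hV)
      set T : Submodule F V := (LinearMap.ker (S'.p 0)).comap B'.mkQ with hT
      set T' : Submodule F V := (LinearMap.ker (S'.p 1)).comap B'.mkQ with hT'
      have hTr : ∀ i, Module.rank F V ≤
          Module.rank F (V ⧸ (LinearMap.ker (S'.p i)).comap B'.mkQ) := by
        intro i
        have h30 : Function.Surjective (S'.p i) := fun v => ⟨_, S'.pe i v⟩
        have h3 : Function.Surjective (S'.p i ∘ₗ B'.mkQ) := h30.comp B'.mkQ_surjective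
        have h4 : LinearMap.ker (S'.p i ∘ₗ B'.mkQ) = (LinearMap.ker (S'.p i)).comap B'.mkQ :=
          LinearMap.ker_comp _ _
        rw [← h4, (LinearMap.quotKerEquivOfSurjective _ h3).rank_eq, heq]
      have hTle : ∀ i, B' ≤ (LinearMap.ker (S'.p i)).comap B'.mkQ := by
        intro i x hx
        rw [Submodule.mem_comap, Submodule.mkQ_apply, (Submodule.Quotient.mk_eq_zero B').2 hx]
        exact Submodule.zero_mem _
      have hTT : T ⊔ T' = ⊤ := by
        rw [eq_top_iff]
        intro v _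
        obtain ⟨w, hw⟩ := B'.mkQ_surjective (S'.e 1 (S'.p 1 (B'.mkQ v)))
        have hv : v = w + (v - w) := by abel
        rw [hv]
        refine Submodule.add_mem_sup ?_ ?_
        · rw [hT, Submodule.mem_comap, hw, LinearMap.mem_ker, S'.pe' _ _ _ (by decide)]
        · rw [hT', Submodule.mem_comap, map_sub, hw, LinearMap.mem_ker, map_sub, S'.pe, sub_self]
      have claim : ∃ B'' ∈ X, B' ≤ B'' ∧ ∃ U, B' ≤ U ∧ B'' ⊔ U = ⊤ ∧
          Module.rank F V ≤ Module.rank F (V ⧸ U) := by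
        by_cases hTX : T ∈ X
        · exact ⟨T, hTX, hTle 0, T', hTle 1, hTT, hTr 1⟩
        · obtain ⟨C, hC, hCT⟩ := hX.exists_codisjoint hTX
          refine ⟨C ⊔ B', hsup _ hC _ hB', le_sup_right, T, hTle 0, ?_, hTr 0⟩
          rw [eq_top_iff, ← hCT]
          exact sup_le (le_sup_left.trans le_sup_left) le_sup_right
      obtain ⟨B'', hB'', hle, U, hU, hUB, hUr⟩ := claim
      refine ⟨B'', hB'', hle, le_antisymm (Submodule.rank_le _) (hUr.trans ?_)⟩
      have h5 : LinearMap.ker (Φ B'') ⊔ U.map (a0 : V →ₗ[F] V) = ⊤ := by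
        rw [eq_top_iff]
        intro v _
        have hv : a0.symm v ∈ B'' ⊔ U := by rw [hUB]; trivial
        obtain ⟨b, hb, t, ht, hbt⟩ := Submodule.mem_sup.1 hv
        obtain ⟨b', hb', c', hc', hbc⟩ := hind (a0 b)
        have h6 : v = a1 c' + a0 (t + b') := by
          have h7 : v = a0 b + a0 t := by
            rw [← map_add, hbt, LinearEquiv.apply_symm_apply]
          rw [h7, hbc, map_add]
          abel
        rw [h6]
        refine Submodule.add_mem_sup ?_ ⟨_, U.add_mem ht (hU hb'), rfl⟩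
        rw [LinearMap.mem_ker, hΦ]
        have h8 : a1 c' = a0 (b - b') := by
          rw [map_sub, hbc]
          abel
        refine Prod.ext ?_ ?_
        · change B''.mkQ (a0.symm (a1 c')) = 0
          rw [h8, LinearEquiv.symm_apply_apply, Submodule.mkQ_apply,
            (Submodule.Quotient.mk_eq_zero B'').2 (B''.sub_mem hb (hle hb'))]
        · change B''.mkQ (a1.symm (a1 c')) = 0
          rw [LinearEquiv.symm_apply_apply, Submodule.mkQ_apply,
            (Submodule.Quotient.mk_eq_zero B'').2 (hle hc')]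
      have h6 := rank_ge_of_sup h5
      refine le_trans (le_of_eq ?_) h6
      exact (Submodule.Quotient.equiv U (U.map (a0 : V →ₗ[F] V)) a0 rfl).rank_eq
  obtain ⟨B'', hB'', hle, hrk⟩ := key
  let Ψ : V →ₗ[F] (V ⧸ B'') × (V ⧸ B'') :=
    LinearMap.prod (B''.mkQ ∘ₗ S.p 0) (B''.mkQ ∘ₗ S.p 1)
  have hΨ : ∀ x : V, Ψ x = (B''.mkQ (S.p 0 x), B''.mkQ (S.p 1 x)) := fun _ => rfl
  have hΦs : Function.Surjective (Φ B'') := by
    rintro ⟨x, y⟩
    obtain ⟨x, rfl⟩ := B''.mkQ_surjective x
    obtain ⟨y, rfl⟩ := B''.mkQ_surjective y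
    obtain ⟨b, hb, c, hc, hbc⟩ := hind (a0 x - a1 y)
    refine ⟨a0 (x - b), ?_⟩
    rw [hΦ]
    have h2 : a0 (x - b) = a1 (y + c) := by
      rw [map_sub, map_add]
      have h3 : a0 x = a0 b + a1 c + a1 y := by rw [← hbc]; abel
      rw [h3]
      abel
    refine Prod.ext ?_ ?_
    · change B''.mkQ (a0.symm (a0 (x - b))) = B''.mkQ x
      rw [LinearEquiv.symm_apply_apply, map_sub, Submodule.mkQ_apply B'' b,
        (Submodule.Quotient.mk_eq_zero B'').2 (hle hb), sub_zero]
    · change B''.mkQ (a1.symm (a0 (x - b))) = B''.mkQ y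
      rw [h2, LinearEquiv.symm_apply_apply, map_add, Submodule.mkQ_apply B'' c,
        (Submodule.Quotient.mk_eq_zero B'').2 (hle hc), add_zero]
  have hΨs : Function.Surjective Ψ := by
    rintro ⟨x, y⟩
    obtain ⟨x, rfl⟩ := B''.mkQ_surjective x
    obtain ⟨y, rfl⟩ := B''.mkQ_surjective y
    refine ⟨S.e 0 x + S.e 1 y, ?_⟩
    rw [hΨ, map_add (S.p 0), map_add (S.p 1), S.pe, S.pe, S.pe' _ _ _ (by decide),
      S.pe' _ _ _ (by decide), add_zero, zero_add]
  have hΨr : Module.rank F (LinearMap.ker Ψ) = Module.rank F V := by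
    refine le_antisymm (Submodule.rank_le _) ?_
    rw [← rank_range_of_injective _ (S.e_injective 2)]
    refine Submodule.rank_mono ?_
    rintro _ ⟨x, rfl⟩
    rw [LinearMap.mem_ker, hΨ, S.pe' _ _ _ (by decide), S.pe' _ _ _ (by decide), map_zero]
    rfl
  obtain ⟨g, hg⟩ := exists_lift (Φ B'') Ψ hΦs hΨs (by rw [hrk, hΨr])
  have hg' : ∀ v, B''.mkQ (S.p 0 v) = B''.mkQ (a0.symm (g.symm v)) ∧
      B''.mkQ (S.p 1 v) = B''.mkQ (a1.symm (g.symm v)) := by
    intro v
    have h2 := hg (g.symm v)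
    rw [LinearEquiv.apply_symm_apply, hΦ, hΨ] at h2
    exact ⟨congrArg Prod.fst h2, congrArg Prod.snd h2⟩
  refine ⟨g, ?_, ?_⟩
  · rw [translate_trans]
    refine translate_eq_of_mod hX.1 hB'' _ _ (fun v => ?_)
    have h2 : S.p 0 v - a0.symm (g.symm v) ∈ B'' := (Submodule.Quotient.eq B'').1 (hg' v).1
    have h3 : g0 v - S.p 0 v ∈ B'' := hle (Submodule.mem_sup_left (h0 v))
    have h4 := B''.neg_mem (B''.add_mem h2 h3)
    have h5 : -(S.p 0 v - a0.symm (g.symm v) + (g0 v - S.p 0 v)) =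
        (a0.trans g).symm v - g0.symm.symm v := by
      change _ = a0.symm (g.symm v) - g0 v
      abel
    rw [← h5]
    exact h4
  · rw [translate_trans]
    refine translate_eq_of_mod hX.1 hB'' _ _ (fun v => ?_)
    have h2 : S.p 1 v - a1.symm (g.symm v) ∈ B'' := (Submodule.Quotient.eq B'').1 (hg' v).2
    have h3 : g1 v - S.p 1 v ∈ B'' := hle (Submodule.mem_sup_left (h1 v))
    have h4 := B''.neg_mem (B''.add_mem h2 h3)
    have h5 : -(S.p 1 v - a1.symm (g.symm v) + (g1 v - S.p 1 v)) =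
        (a1.trans g).symm v - g1.symm.symm v := by
      change _ = a1.symm (g.symm v) - g1 v
      abel
    rw [← h5]
    exact h4

/-- The degree of transitivity on the translates of a maximal ideal is two. -/
theorem ideal_degree {X : Set (Submodule F V)} (hV : ℵ₀ ≤ Module.rank F V) (hX : IsMaxIdl X)
    (k : ℕ) : KTransitive k (orbit X) ↔ k ≤ 2 := by
  obtain ⟨S⟩ := nonempty_split hV
  obtain ⟨B, hB, g, h, hg, hh⟩ := hX.data S
  obtain ⟨⟨hbot, htop, hdown, hsup⟩, hmax⟩ := id hX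
  -- the kernels of `p i` modulo `B`
  have hmem : ∀ (i : ℕ), B.comap (g i : V →ₗ[F] V) ∈ translate (g i).symm X := by
    intro i
    rw [mem_translate]
    convert hB using 1
    ext x
    change g i ((g i).symm x) ∈ B ↔ _
    rw [LinearEquiv.apply_symm_apply]
  have hmemh : B.comap (h : V →ₗ[F] V) ∈ translate h.symm X := by
    rw [mem_translate]
    convert hB using 1
    ext x
    change h (h.symm x) ∈ B ↔ _
    rw [LinearEquiv.apply_symm_apply]
  have hin : ∀ i v, v ∈ B.comap (g i : V →ₗ[F] V) ↔ S.p i v ∈ B := by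
    intro i v
    change g i v ∈ B ↔ _
    constructor
    · intro h1
      have := B.sub_mem h1 (hg i v)
      rwa [sub_sub_cancel] at this
    · intro h1
      have := B.add_mem (hg i v) h1
      rwa [sub_add_cancel] at this
  have hinh : ∀ v, v ∈ B.comap (h : V →ₗ[F] V) ↔ S.p 0 v + S.p 1 v ∈ B := by
    intro v
    change h v ∈ B ↔ _
    constructor
    · intro h1
      have := B.sub_mem h1 (hh v)
      rwa [sub_sub_cancel] at this
    · intro h1
      have := B.add_mem (hh v) h1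
      rwa [sub_add_cancel] at this
  constructor
  · intro hk
    by_contra hc
    have hs : ∀ i, translate (g i).symm X ∈ orbit X := fun i => ⟨(g i).symm, rfl⟩
    have hd : translate h.symm X ∈ orbit X := ⟨h.symm, rfl⟩
    refine not_kTransitive (fun i => translate (g i).symm X) (translate h.symm X) hs hd ?_ ?_
      CoIndep3 (fun g x y z h => h.tr g) ?_ ?_ (by omega : 3 ≤ k) hk
    · intro i j hij
      by_contra hne
      have h1 := hmem i
      have h2 := hmem j
      have hij' : translate (g i).symm X = translate (g j).symm X := hij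
      rw [← hij'] at h2
      have h3 := (hX.of_mem_orbit (hs i)).1.2.2.2 _ h1 _ h2
      have h4 : B.comap (g i : V →ₗ[F] V) ⊔ B.comap (g j : V →ₗ[F] V) = ⊤ := by
        rw [eq_top_iff]
        intro v _
        have hv : v = S.e j (S.p j v) + (v - S.e j (S.p j v)) := by abel
        rw [hv]
        refine Submodule.add_mem_sup ?_ ?_
        · rw [hin, S.pe' _ _ _ hne]
          exact B.zero_mem
        · rw [hin, map_sub, S.pe, sub_self]
          exact B.zero_mem
      rw [h4] at h3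
      exact (hX.of_mem_orbit (hs i)).1.2.1 h3
    · intro i _ hij
      have h1 := hmem i
      have h2 := hmemh
      have hij' : translate (g i).symm X = translate h.symm X := hij
      rw [← hij'] at h2
      have h3 := (hX.of_mem_orbit (hs i)).1.2.2.2 _ h1 _ h2
      have h4 : B.comap (g i : V →ₗ[F] V) ⊔ B.comap (h : V →ₗ[F] V) = ⊤ := by
        rw [eq_top_iff]
        intro v _
        by_cases hi : i = 0
        · have hv : v = S.e 1 (S.p 0 v + S.p 1 v) + (v - S.e 1 (S.p 0 v + S.p 1 v)) := by abel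
          rw [hv]
          refine Submodule.add_mem_sup ?_ ?_
          · rw [hin, S.pe' _ _ _ (by rw [hi]; decide)]
            exact B.zero_mem
          · rw [hinh, map_sub, map_sub, S.pe, S.pe' _ _ _ (by decide)]
            have : S.p 0 v - 0 + (S.p 1 v - (S.p 0 v + S.p 1 v)) = 0 := by abel
            rw [this]
            exact B.zero_mem
        · have hv : v = S.e 0 (S.p 0 v + S.p 1 v) + (v - S.e 0 (S.p 0 v + S.p 1 v)) := by abel
          rw [hv]
          refine Submodule.add_mem_sup ?_ ?_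
          · rw [hin, S.pe' _ _ _ hi]
            exact B.zero_mem
          · rw [hinh, map_sub, map_sub, S.pe, S.pe' 1 _ _ (by decide)]
            have : S.p 0 v - (S.p 0 v + S.p 1 v) + (S.p 1 v - 0) = 0 := by abel
            rw [this]
            exact B.zero_mem
      rw [h4] at h3
      exact (hX.of_mem_orbit (hs i)).1.2.1 h3
    · refine ⟨_, hmem 0, _, hmem 1, _, hmem 2, ?_⟩
      intro a b c
      refine ⟨S.e 0 (S.p 0 a) + S.e 1 (S.p 1 b) + S.e 2 (S.p 2 c), ?_, ?_, ?_⟩
      · rw [hin, map_sub, map_add, map_add, S.pe, S.pe' _ _ _ (by decide),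
          S.pe' _ _ _ (by decide), add_zero, add_zero, sub_self]
        exact B.zero_mem
      · rw [hin, map_sub, map_add, map_add, S.pe, S.pe' _ _ _ (by decide),
          S.pe' _ _ _ (by decide), add_zero, zero_add, sub_self]
        exact B.zero_mem
      · rw [hin, map_sub, map_add, map_add, S.pe, S.pe' _ _ _ (by decide),
          S.pe' _ _ _ (by decide), zero_add, zero_add, sub_self]
        exact B.zero_mem
    · rintro ⟨A, hA, B', hB', C, hC, hind⟩
      rw [mem_translate] at hA hB' hC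
      have hD := hsup _ hB _ (hsup _ hA _ (hsup _ hB' _ hC))
      set D := B ⊔ (A.comap ((g 0).symm : V →ₗ[F] V) ⊔ (B'.comap ((g 1).symm : V →ₗ[F] V) ⊔
        C.comap (h.symm : V →ₗ[F] V))) with hDdef
      have hDne : D ≠ ⊤ := fun h => htop (h ▸ hD)
      obtain ⟨e, he⟩ : ∃ e, e ∉ D := by
        by_contra hc'
        push Not at hc'
        exact hDne (eq_top_iff.2 (fun x _ => hc' x))
      obtain ⟨t, h1, h2, h3⟩ := hind 0 0 (S.e 0 e)
      apply he
      have hBD : B ≤ D := le_sup_left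
      have e1 : g 0 t ∈ D := by
        refine Submodule.mem_sup_right (Submodule.mem_sup_left ?_)
        change (g 0).symm (g 0 t) ∈ A
        rw [LinearEquiv.symm_apply_apply]
        simpa using h1
      have e2 : g 1 t ∈ D := by
        refine Submodule.mem_sup_right (Submodule.mem_sup_right (Submodule.mem_sup_left ?_))
        change (g 1).symm (g 1 t) ∈ B'
        rw [LinearEquiv.symm_apply_apply]
        simpa using h2
      have e3 : h (t - S.e 0 e) ∈ D := by
        refine Submodule.mem_sup_right (Submodule.mem_sup_right (Submodule.mem_sup_right ?_))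
        change h.symm (h (t - S.e 0 e)) ∈ C
        rw [LinearEquiv.symm_apply_apply]
        exact h3
      have f1 : S.p 0 t ∈ D := by
        have := D.sub_mem e1 (hBD (hg 0 t))
        rwa [sub_sub_cancel] at this
      have f2 : S.p 1 t ∈ D := by
        have := D.sub_mem e2 (hBD (hg 1 t))
        rwa [sub_sub_cancel] at this
      have f3 : S.p 0 (t - S.e 0 e) + S.p 1 (t - S.e 0 e) ∈ D := by
        have := D.sub_mem e3 (hBD (hh (t - S.e 0 e)))
        rwa [sub_sub_cancel] at this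
      rw [map_sub, map_sub, S.pe, S.pe' _ _ _ (by decide), sub_zero] at f3
      have f4 := D.sub_mem (D.add_mem f1 f2) f3
      have f5 : S.p 0 t + S.p 1 t - (S.p 0 t - e + S.p 1 t) = e := by abel
      rwa [f5] at f4
  · intro hk
    exact kTransitive_of_le_two (hX.two_trans hV S hB (hg 0) (hg 1)) hk

end Q6.Filt
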