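import Pool.Agent.Q6.Filt.Defs

/-!
# Rank tools in infinite-dimensional vector spaces
-/

namespace Q6.Filt

open Cardinal

universe u v w

variable {F : Type u} {V : Type v} [Field F] [AddCommGroup V] [Module F V]

/-- An infinite-dimensional space is the direct sum of countably many copies of itself. -/
lemma exists_split (hV : ℵ₀ ≤ Module.rank F V) : Nonempty (V ≃ₗ[F] (ℕ →₀ V)) := by
  apply nonempty_linearEquiv_of_rank_eq
  rw [rank_finsupp]
  simp only [mk_nat, lift_aleph0, lift_uzero]
  rw [Cardinal.aleph0_mul_eq hV]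

/-- A family of embeddings and projections. -/
structure Split (F : Type u) (V : Type v) [Field F] [AddCommGroup V] [Module F V] where
  e : ℕ → V →ₗ[F] V
  p : ℕ → V →ₗ[F] V
  pe : ∀ i v, p i (e i v) = v
  pe' : ∀ i j v, i ≠ j → p i (e j v) = 0

lemma nonempty_split (hV : ℵ₀ ≤ Module.rank F V) : Nonempty (Split F V) := by
  obtain ⟨ψ⟩ := exists_split hV
  refine ⟨⟨fun i => ψ.symm.toLinearMap ∘ₗ Finsupp.lsingle i, fun i => Finsupp.lapply i ∘ₗ
    ψ.toLinearMap, ?_, ?_⟩⟩
  · intro i v
    simp
  · intro i j v hij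
    simp [Finsupp.single_eq_of_ne hij]

lemma Split.e_injective (S : Split F V) (i : ℕ) : Function.Injective (S.e i) :=
  Function.LeftInverse.injective (g := S.p i) (S.pe i)

lemma rank_range_of_injective {E : Type v} [AddCommGroup E] [Module F E] (f : E →ₗ[F] V)
    (hf : Function.Injective f) : Module.rank F (LinearMap.range f) = Module.rank F E :=
  (LinearEquiv.ofInjective f hf).rank_eq.symm

/-- A subspace disjoint from a subspace of full rank has full codimension. -/
lemma rank_quot_of_disjoint {W T : Submodule F V} (h : W ⊓ T = ⊥) :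
    Module.rank F T ≤ Module.rank F (V ⧸ W) := by
  have : Function.Injective (W.mkQ ∘ₗ T.subtype) := by
    rw [← LinearMap.ker_eq_bot, eq_bot_iff]
    intro x hx
    rw [LinearMap.mem_ker, LinearMap.comp_apply, Submodule.mkQ_apply,
      Submodule.Quotient.mk_eq_zero] at hx
    have h2 : (x : V) ∈ W ⊓ T := ⟨hx, x.2⟩
    rw [h, Submodule.mem_bot] at h2
    rw [Submodule.mem_bot]
    exact Subtype.ext h2
  exact LinearMap.rank_le_of_injective _ this

lemma rank_quot_eq_of_disjoint {W T : Submodule F V} (h : W ⊓ T = ⊥)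
    (hT : Module.rank F V ≤ Module.rank F T) : Module.rank F (V ⧸ W) = Module.rank F V :=
  le_antisymm (rank_quotient_le W) (hT.trans (rank_quot_of_disjoint h))

/-- A subspace whose sum with `T` is everything has rank at least the codimension of `T`. -/
lemma rank_ge_of_sup {W T : Submodule F V} (h : W ⊔ T = ⊤) :
    Module.rank F (V ⧸ T) ≤ Module.rank F W := by
  have : Function.Surjective (T.mkQ ∘ₗ W.subtype) := by
    intro x
    obtain ⟨x, rfl⟩ := T.mkQ_surjective x
    have hx : x ∈ W ⊔ T := by rw [h]; trivial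
    obtain ⟨w, hw, t, ht, rfl⟩ := Submodule.mem_sup.1 hx
    refine ⟨⟨w, hw⟩, ?_⟩
    rw [LinearMap.comp_apply, map_add]
    simp [(Submodule.Quotient.mk_eq_zero T).2 ht]
  exact LinearMap.rank_le_of_surjective _ this

/-- Two embeddings of the same space with the same codimension differ by an automorphism. -/
lemma exists_extend {E : Type w} [AddCommGroup E] [Module F E] (f f' : E →ₗ[F] V)
    (hf : Function.Injective f) (hf' : Function.Injective f')
    (hr : Module.rank F (V ⧸ LinearMap.range f) = Module.rank F (V ⧸ LinearMap.range f')) :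
    ∃ g : V ≃ₗ[F] V, ∀ x, g (f x) = f' x := by
  obtain ⟨C, hC⟩ := Submodule.exists_isCompl (LinearMap.range f)
  obtain ⟨C', hC'⟩ := Submodule.exists_isCompl (LinearMap.range f')
  have e1 : (V ⧸ LinearMap.range f) ≃ₗ[F] C := Submodule.quotientEquivOfIsCompl _ _ hC
  have e2 : (V ⧸ LinearMap.range f') ≃ₗ[F] C' := Submodule.quotientEquivOfIsCompl _ _ hC'
  have hr' : Module.rank F C = Module.rank F C' := by rw [← e1.rank_eq, hr, e2.rank_eq]
  obtain ⟨e⟩ := nonempty_linearEquiv_of_rank_eq hr'
  refine ⟨(Submodule.prodEquivOfIsCompl _ _ hC).symm ≪≫ₗ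
    (((LinearEquiv.ofInjective f hf).symm ≪≫ₗ (LinearEquiv.ofInjective f' hf')).prodCongr e) ≪≫ₗ
    (Submodule.prodEquivOfIsCompl _ _ hC'), fun x => ?_⟩
  have h1 : (Submodule.prodEquivOfIsCompl _ _ hC).symm (f x) =
      ((⟨f x, x, rfl⟩ : LinearMap.range f), (0 : C)) := by
    rw [LinearEquiv.symm_apply_eq]
    simp
  have h2 : (LinearEquiv.ofInjective f hf).symm ⟨f x, x, rfl⟩ = x := by
    rw [LinearEquiv.symm_apply_eq]
    rfl
  simp only [LinearEquiv.trans_apply, h1, LinearEquiv.prodCongr_apply, h2]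
  simp

/-- Two surjections onto the same space with kernels of the same rank differ by an
automorphism. -/
lemma exists_lift {D : Type w} [AddCommGroup D] [Module F D] (f f' : V →ₗ[F] D)
    (hf : Function.Surjective f) (hf' : Function.Surjective f')
    (hr : Module.rank F (LinearMap.ker f) = Module.rank F (LinearMap.ker f')) :
    ∃ g : V ≃ₗ[F] V, ∀ x, f' (g x) = f x := by
  obtain ⟨C, hC⟩ := Submodule.exists_isCompl (LinearMap.ker f)
  obtain ⟨C', hC'⟩ := Submodule.exists_isCompl (LinearMap.ker f')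
  obtain ⟨e⟩ := nonempty_linearEquiv_of_rank_eq hr
  let c : C ≃ₗ[F] D := (LinearMap.kerComplementEquivRange f hC.symm) ≪≫ₗ
    (LinearEquiv.ofTop _ (LinearMap.range_eq_top.2 hf))
  let c' : C' ≃ₗ[F] D := (LinearMap.kerComplementEquivRange f' hC'.symm) ≪≫ₗ
    (LinearEquiv.ofTop _ (LinearMap.range_eq_top.2 hf'))
  have hc : ∀ x : C, c x = f x := fun x => rfl
  have hc' : ∀ x : C', c' x = f' x := fun x => rfl
  refine ⟨(Submodule.prodEquivOfIsCompl _ _ hC).symm ≪≫ₗ
    (e.prodCongr (c ≪≫ₗ c'.symm)) ≪≫ₗ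
    (Submodule.prodEquivOfIsCompl _ _ hC'), fun x => ?_⟩
  obtain ⟨⟨a, b⟩, rfl⟩ := (Submodule.prodEquivOfIsCompl _ _ hC).surjective x
  simp only [LinearEquiv.trans_apply, LinearEquiv.symm_apply_apply, LinearEquiv.prodCongr_apply]
  rw [Submodule.coe_prodEquivOfIsCompl', Submodule.coe_prodEquivOfIsCompl', map_add, map_add,
    a.2, (e a).2, zero_add, zero_add, ← hc', LinearEquiv.apply_symm_apply, hc]

end Q6.Filt
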